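import Pool.Agent.R838.IS.Is9
import Pool.Agent.R838.TW.Form
import Pool.Agent.R838.TW.Cnt

/-!
# The L-functions of elliptic curves over abelian fields and their heat flow at very short times

Let `E` be an elliptic curve over `ℚ` of conductor `N`, `K` an abelian number field of conductor prime to `N` (given by
its group `G` of Dirichlet characters, `d = [K : ℚ] = card G`), `Λ(s) = Λ(E/K, s)` the completed L-function of `E` over
`K`, and `Λ_t = exp (t D²) Λ`, `D = d/ds`, its heat flow. The Riemann hypothesis for `L(E/K, s)` holds if and only if all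
zeros of `Λ_t` are on the line `Re s = 1` for all `t > 0`. The number of the zeros of `Λ_t` with ordinate in `(0, T]` is
asymptotic to `(d/π) T log T`.

No hypothesis is assumed. `Λ` is the product of `d` different L-functions of degree two; its heat flow is not a product.

* At times `t ≤ δ / log² T` the zeros of `Λ_t` up to height `T` reproduce those of `Λ`: the numbers of zeros at distance
  at least `σ / log T` from the line, and the numbers of simple zeros on the line without other zeros in a box with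
  half height `α / log T` and half width `β / log T`, agree up to changes of `σ`, `α`, `β` by `ε` and up to
  `ε T log T` zeros.
* So if `t(T) log² T → 0`, then almost all zeros of `Λ` are within `o(1 / log T)` of the line if and only if this is true
  of `Λ_{t(T)}`; and the same for: almost all zeros are simple, on the line, and isolated at the scale `1 / log T`.
* If `t(T) log² T → ∞` and `t(T) log T` is bounded, then the latter is true of `Λ_{t(T)}`.

So `1 / log² T` is the precise time at which the zeros of `L(E/K, s)` are moved to the line, and the statement `almost all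
zeros of L(E/K, s) are simple, on the line and separated` is equivalent to the same statement for the heat flow up to
that time.

The general theorem is `Pool.Agent.R838.IS.Is9`, applied so far to the L-functions of single forms
(MP_cd509c_nt); the properties of the product are from `Pool.Agent.R838.TW`.
-/

set_option autoImplicit false

open Complex UpperHalfPlane MatrixGroups CongruenceSubgroup Filter Topology
open scoped ComplexConjugate

namespace Pool.Agent.Results.MP_fb225e_nt.HeatFlowStabilityAbelian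

/-! ### Elliptic curves over `ℚ` and abelian number fields -/

/-- The coefficient `a_p` of `E : y² = x³ + a x + b` at a prime `p ∤ 2 (4a³ + 27b²)`: `p` minus the
number of pairs `(x, y)` modulo `p` with `y² ≡ x³ + a x + b (mod p)`. -/
noncomputable def ap (a b : ℤ) (p : ℕ) : ℤ :=
  (p : ℤ) - (((Finset.range p ×ˢ Finset.range p).filter
    (fun xy : ℕ × ℕ => (p : ℤ) ∣ (xy.2 : ℤ) ^ 2 -
      ((xy.1 : ℤ) ^ 3 + a * (xy.1 : ℤ) + b))).card : ℤ)

/-- The `n`-th Fourier coefficient of `f`. -/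
noncomputable def coef {N : ℕ} (f : CuspForm (Gamma0 N : Subgroup (GL (Fin 2) ℝ)) 2) (n : ℕ) : ℂ :=
  (qExpansion 1 f).coeff n

/-- `f ∈ S_2(Γ₀(N))` is the newform of the elliptic curve `E : y² = x³ + a x + b` of conductor `N` and
root number `w`: the Fourier coefficients `c(n)` of `f` are real with `c(1) = 1`, they satisfy the
Hecke relations `c(mn) = c(m) c(n)` for coprime `m`, `n` and `c(p^(j+2)) = c(p) c(p^(j+1)) - p c(p^j)`
(without the last term if `p ∣ N`), `f(-1/(Nτ)) = -w N τ² f(τ)`, `c(p) = a_p(E)` for all primes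
`p ∤ 2 (4a³ + 27b²)`, `|c(p)| ≤ 2 √p` for all `p ∤ N` (Hasse) and `c(p) = 0, 1, -1` for `p ∣ N`. -/
structure IsFormOf (a b : ℤ) (N : ℕ) (f : CuspForm (Gamma0 N : Subgroup (GL (Fin 2) ℝ)) 2) (w : ℝ) :
    Prop where
  one : coef f 1 = 1
  real : ∀ n, (coef f n).im = 0
  mul : ∀ m n : ℕ, Nat.Coprime m n → coef f (m * n) = coef f m * coef f n
  pow : ∀ p j : ℕ, p.Prime → coef f (p ^ (j + 2)) = coef f p * coef f (p ^ (j + 1)) -
      (if p ∣ N then 0 else (p : ℂ) * coef f (p ^ j))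
  sign : w = 1 ∨ w = -1
  fricke : ∀ τ τ' : ℍ, (τ' : ℂ) * ((N : ℂ) * (τ : ℂ)) = -1 →
    f τ' = -(w : ℂ) * (N : ℂ) * (τ : ℂ) ^ 2 * f τ
  points : ∀ p : ℕ, p.Prime → ¬ (p : ℤ) ∣ 2 * (4 * a ^ 3 + 27 * b ^ 2) → coef f p = (ap a b p : ℂ)
  good : ∀ p : ℕ, p.Prime → ¬ p ∣ N → ‖coef f p‖ ≤ 2 * Real.sqrt p
  bad : ∀ p : ℕ, p.Prime → p ∣ N → coef f p = 0 ∨ coef f p = 1 ∨ coef f p = -1

/-- The completed L-function of the twist of `E` by `χ` modulo `q`, for `Re s > 3/2`:
`(√N q / 2π)^s Γ(s) ∑ c(n) χ(n) n^(-s)`. -/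
noncomputable def twist {N : ℕ} (f : CuspForm (Gamma0 N : Subgroup (GL (Fin 2) ℝ)) 2) {q : ℕ}
    (χ : DirichletCharacter ℂ q) (s : ℂ) : ℂ :=
  ((Real.sqrt N * q / (2 * Real.pi) : ℝ) : ℂ) ^ s * Complex.Gamma s *
    ∑' n : ℕ, coef f (n + 1) * χ ((n + 1 : ℕ) : ZMod q) * ((n + 1 : ℕ) : ℂ) ^ (-s)

/-- `Λ = Λ(E/K, s)`, where `K` is the abelian number field with the group `G` of Dirichlet
characters: `Λ` is entire and, for `Re s > 3/2`, it is the product over `χ` in `G` of the completed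
L-functions of the twists of `E` by the primitive character associated with `χ`. -/
def IsCompleted {M : ℕ} (G : Subgroup (DirichletCharacter ℂ M)) [Fintype G] {N : ℕ}
    (f : CuspForm (Gamma0 N : Subgroup (GL (Fin 2) ℝ)) 2) (Λ : ℂ → ℂ) : Prop :=
  Differentiable ℂ Λ ∧ ∀ s : ℂ, 3 / 2 < s.re →
    Λ s = ∏ χ : G, twist f (χ : DirichletCharacter ℂ M).primitiveCharacter s

/-! ### The heat flow and its zeros -/

/-- The heat flow `Λ_t = exp (t D²) Λ` (`D = d/ds`, `t ≥ 0`) as a Gaussian average: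
`Λ_t(s) = π^(-1/2) ∫ exp (-v²) Λ(s + 2 √t v) dv`; in particular `Λ_0 = Λ`. -/
noncomputable def heat (t : ℝ) (Λ : ℂ → ℂ) (s : ℂ) : ℂ :=
  ((1 / Real.sqrt Real.pi : ℝ) : ℂ) *
    ∫ v : ℝ, ((Real.exp (-v ^ 2) : ℝ) : ℂ) * Λ (s + ((2 * Real.sqrt t * v : ℝ) : ℂ))

/-- The zeros of `Y` with ordinate in `(0, T]`; a zero of order `m` gives `m` elements. -/
def zeros (Y : ℂ → ℂ) (T : ℝ) : Set (ℂ × ℕ) := {p | p.2 < analyticOrderNatAt Y p.1 ∧ (0 < p.1.im ∧ p.1.im ≤ T)}

/-- The zeros of `Y` with ordinate in `(0, T]` at distance at least `σ / log T` from the line `Re s = 1`; a zero of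
order `m` gives `m` elements. -/
def far (Y : ℂ → ℂ) (T σ : ℝ) : Set (ℂ × ℕ) :=
  {p | p.2 < analyticOrderNatAt Y p.1 ∧ (0 < p.1.im ∧ p.1.im ≤ T) ∧ σ ≤ |p.1.re - 1| * Real.log T}

/-- The simple zeros of `Y` on the line `Re s = 1` with ordinate in `(0, T]` without other zeros in the open box with half
height `α / log T` around the ordinate and half width `β / log T` around the line. -/
def iso (Y : ℂ → ℂ) (T α β : ℝ) : Set ℂ :=
  {s | s.re = 1 ∧ (0 < s.im ∧ s.im ≤ T) ∧ analyticOrderNatAt Y s = 1 ∧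
    ∀ w : ℂ, Y w = 0 → w ≠ s → α ≤ |w.im - s.im| * Real.log T ∨ β ≤ |w.re - 1| * Real.log T}

/-- Almost all zeros of `Y T` up to height `T` are at the distance `o(1 / log T)` from the line `Re s = 1`. -/
def NearLine (Y : ℝ → ℂ → ℂ) : Prop := ∀ σ η : ℝ, 0 < σ → 0 < η → ∀ᶠ T : ℝ in atTop,
  ((far (Y T) T σ).ncard : ℝ) ≤ η * (T * Real.log T)

/-- Almost all zeros of `Y T` up to height `T` are simple, on the line `Re s = 1` and isolated: for every `η > 0` there
is `σ > 0` such that for large `T` all but `η T log T` of the zeros are in `iso (Y T) T σ σ`. -/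
def EssentiallySimple (Y : ℝ → ℂ → ℂ) : Prop := ∀ η : ℝ, 0 < η → ∃ σ : ℝ, 0 < σ ∧
  ∀ᶠ T : ℝ in atTop, ((zeros (Y T) T).ncard : ℝ) ≤ ((iso (Y T) T σ σ).ncard : ℝ) + η * (T * Real.log T)

/-- **Main theorem.** Let `E : y² = x³ + a x + b` be an elliptic curve over `ℚ` with newform `f` of level
`N`, and let `K` be an abelian number field of conductor prime to `N`, given by its group `G` of Dirichlet
characters modulo `M`.  Then `Λ = Λ(E/K, s)` exists, is unique and has a functional equation, and the zeros of its heat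
flow `Λ_t` up to height `T` reproduce those of `Λ` at the scale `1 / log T` for `t = o(1 / log² T)`, and are almost all
simple, on the line `Re s = 1` and isolated at this scale if `t log² T → ∞` and `t log T` is bounded. -/
theorem result : ∀ (a b : ℤ) (N : ℕ) [NeZero N] (f : CuspForm (Gamma0 N : Subgroup (GL (Fin 2) ℝ)) 2) (w : ℝ),
    4 * a ^ 3 + 27 * b ^ 2 ≠ 0 → IsFormOf a b N f w →
    ∀ (M : ℕ) [NeZero M] (G : Subgroup (DirichletCharacter ℂ M)) [Fintype G], Nat.Coprime M N →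
    ∃ Λ : ℂ → ℂ, IsCompleted G f Λ ∧ (∀ Λ' : ℂ → ℂ, IsCompleted G f Λ' → Λ' = Λ) ∧
      (∃ W : ℂ, ‖W‖ = 1 ∧ ∀ s : ℂ, Λ (2 - s) = W * conj (Λ (conj s))) ∧
      (∀ ε : ℝ, 0 < ε → ∃ δ T₀ : ℝ, 0 < δ ∧ ∀ T t : ℝ, T₀ ≤ T → 0 ≤ t → t ≤ δ / Real.log T ^ 2 → ∀ σ : ℝ,
        ((far Λ T σ).ncard : ℝ) ≤ ((far (heat t Λ) T (σ - ε)).ncard : ℝ) + ε * (T * Real.log T) ∧
        ((far (heat t Λ) T σ).ncard : ℝ) ≤ ((far Λ T (σ - ε)).ncard : ℝ) + ε * (T * Real.log T)) ∧
      (∀ A ε : ℝ, 0 < ε → ∃ δ T₀ : ℝ, 0 < δ ∧ ∀ T t α β : ℝ, T₀ ≤ T → 0 ≤ t → t ≤ δ / Real.log T ^ 2 →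
        ε ≤ α → α ≤ A → ε ≤ β →
        ((iso Λ T α β).ncard : ℝ) ≤ ((iso (heat t Λ) T (α - ε) (β - ε)).ncard : ℝ) + ε * (T * Real.log T) ∧
        ((iso (heat t Λ) T α β).ncard : ℝ) ≤ ((iso Λ T (α - ε) (β - ε)).ncard : ℝ) + ε * (T * Real.log T)) ∧
      (∀ t : ℝ → ℝ, (∀ T, 0 ≤ t T) → Tendsto (fun T => t T * Real.log T ^ 2) atTop (𝓝 0) →
        (NearLine (fun _ => Λ) ↔ NearLine (fun T => heat (t T) Λ)) ∧
        (EssentiallySimple (fun _ => Λ) ↔ EssentiallySimple (fun T => heat (t T) Λ))) ∧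
      (∀ (t : ℝ → ℝ) (A : ℝ), (∀ᶠ T in atTop, t T * Real.log T ≤ A) →
        Tendsto (fun T => t T * Real.log T ^ 2) atTop atTop → EssentiallySimple (fun T => heat (t T) Λ)) := by
  intro a b N _ f w _ hf M _ G _ hco
  have hf' : Pool.Agent.W169.HF.IsForm N f w :=
    { one := hf.one
      real := hf.real
      mul := hf.mul
      pow := hf.pow
      sign := hf.sign
      fricke := hf.fricke
      good := hf.good
      bad := fun p hp hpN => by
        have h1 : (1 : ℝ) ≤ Real.sqrt p := by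
          rw [Real.one_le_sqrt]
          exact_mod_cast hp.one_le
        have h2 : ‖coef f p‖ ≤ 1 := by
          rcases hf.bad p hp hpN with h | h | h <;> simp [h]
        exact h2.trans h1 }
  obtain ⟨X, v, hP, hv, hX⟩ := Pool.Agent.R838.TW.pl_ab G hf' hco
  obtain ⟨Λ, h1, h2, h3, h4⟩ := Pool.Agent.R838.TW.exists_Lam hP 1 (G := Pool.Agent.W355.UN.prodE G f) hv (σ := 3 / 2)
    (fun s hs => by rw [Complex.ofReal_one]; exact hX s hs)
  have hκ : (1 : ℝ) / 2 ≤ Fintype.card G := by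
    have h5 : (1 : ℝ) ≤ Fintype.card G := by exact_mod_cast (Fintype.card_pos : 0 < Fintype.card G)
    linarith
  obtain ⟨H, Z, hG⟩ := h4.gy
  obtain ⟨F, FT, hx⟩ := Pool.Agent.R838.IS.hx_of hκ hv hG h4.strip h4.huge
  have hz : Pool.Agent.W169.HF.heat 0 Λ = Λ := Pool.Agent.R838.IS.heat_zero Λ
  refine ⟨Λ, ⟨h1, h2⟩, fun Λ' h' => Pool.Agent.R838.TW.uniq h1 h'.1 ⟨3 / 2, h2⟩ ⟨3 / 2, h'.2⟩, ?_,
    fun ε hε => ?_, fun A ε hε => ?_, fun t ht hl => ?_, fun t A hA ht => ?_⟩
  · obtain ⟨W, hW, h7⟩ := h3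
    refine ⟨W, hW, fun s => ?_⟩
    have h8 := h7 s
    rwa [Complex.ofReal_one, mul_one] at h8
  · obtain ⟨δ, T0, hδ, hT0, h⟩ := Pool.Agent.R838.IS.cmpLF hx ε hε
    refine ⟨δ, T0, hδ, fun T t h1 h2 h3 σ => ?_⟩
    have h0 : (0 : ℝ) ≤ δ / Real.log T ^ 2 := by positivity
    have k1 := h T 0 t σ h1 le_rfl h2 (Or.inl rfl) h0 h3
    have k2 := h T t 0 σ h1 h2 le_rfl (Or.inr rfl) h3 h0
    rw [hz] at k1 k2
    exact ⟨k1, k2⟩
  · obtain ⟨δ, T0, hδ, hT0, h⟩ := Pool.Agent.R838.IS.cmpLI hx (max A 0) (le_max_right _ _) ε hε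
    refine ⟨δ, T0, hδ, fun T t α β h1 h2 h3 h4 h5 h6 => ?_⟩
    have h0 : (0 : ℝ) ≤ δ / Real.log T ^ 2 := by positivity
    have k1 := h T 0 t α β h1 le_rfl h2 (Or.inl rfl) h0 h3 h4 (h5.trans (le_max_left _ _)) h6
    have k2 := h T t 0 α β h1 h2 le_rfl (Or.inr rfl) h3 h0 h4 (h5.trans (le_max_left _ _)) h6
    rw [hz] at k1 k2
    exact ⟨k1, k2⟩
  · exact (Pool.Agent.R838.IS.equivL hx ht hl).symm
  · exact Pool.Agent.R838.IS.largeL hx hA ht

end Pool.Agent.Results.MP_fb225e_nt.HeatFlowStabilityAbelian
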