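import Pool.Agent.R838.TW.Form
import Pool.Agent.Helper29K9.Clu.Lam

/-!
# The zeros of the L-functions of elliptic curves over abelian fields in windows of `h` mean distances

Let `E` be an elliptic curve over `ℚ` of conductor `N`, `K` an abelian number field of conductor prime to `N` (given by
its group `G` of Dirichlet characters, `d = [K : ℚ] = card G`), and `Λ(s) = Λ(E/K, s)` the completed L-function of `E`
over `K`. It has `~ (d/π) T log T` zeros up to height `T`, so a window of heights `(t, t + h / log T]` should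
contain `d h / π` zeros; by the Riemann hypothesis all of them are on the line `Re s = 1`.

We prove unconditionally, for every `E`, every `K` and every `ε > 0`: for all `T ≥ 2` and `0 ≤ h ≤ log T`, and for all
heights `t` in `[0, T]` outside of a set of measure at most `C e^(-c h) T`, the window `(t, t + h / log T]`

* contains `(d/π + O(ε)) h` zeros (counted with multiplicity), and
* ALL these zeros are at distance at most `ε h / log T` from the line `Re s = 1`.

Here `c > 0` and `C` depend only on `ε`, `E` and `K`. So windows without zeros, or with many more zeros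
than expected (for instance because of zeros of high multiplicity, or since the zeros of the `d` different L-functions
of which `Λ` is the product cluster), or with a zero far from the line compared with the size of the window, are
exponentially rare, down to the scale of the mean distance of the zeros.

Proof: `Λ` is a product of the L-functions of the twists of the newform of `E`; the mollified second moments near the
line show that at most heights, at all scales `a / log T`, the logarithmic derivative of `Λ` is near its main term in the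
right part of the disc of that radius (starting modules `Pool.Agent.Y671`, `Pool.Agent.Y693`, `Pool.Agent.R838.TW`).
New here (`Pool.Agent.Helper29K9.Clu`): at such a height the number of zeros in a window is determined up to `ε h` by
comparing the variation of the argument of `Λ` on the two sides of the line, at the distance `ε' h / log T`; the
zeros in a surrounding disc are divided out, and the remaining factor is controlled by the Borel-Caratheodory theorem.
-/

set_option autoImplicit false

open Complex UpperHalfPlane MatrixGroups CongruenceSubgroup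
open scoped ComplexConjugate

namespace Pool.Agent.Results.MP_fb225e_nt.TypicalWindows

/-! ### Elliptic curves over `ℚ` and abelian number fields -/

/-- The coefficient `a_p` of `E : y² = x³ + a x + b` at a prime `p ∤ 2 (4a³ + 27b²)`: `p` minus the
number of pairs `(x, y)` modulo `p` with `y² ≡ x³ + a x + b (mod p)`. -/
noncomputable def ap (a b : ℤ) (p : ℕ) : ℤ :=
  (p : ℤ) - (((Finset.range p ×ˢ Finset.range p).filter
    (fun xy : ℕ × ℕ => (p : ℤ) ∣ (xy.2 : ℤ) ^ 2 -
      ((xy.1 : ℤ) ^ 3 + a * (xy.1 : ℤ) + b))).card : ℤ)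

/-- The `n`-th Fourier coefficient of `f`. -/
noncomputable def coef {N : ℕ} (f : CuspForm (Gamma0 N : Subgroup (GL (Fin 2) ℝ)) 2) (n : ℕ) : ℂ :=
  (qExpansion 1 f).coeff n

/-- `f ∈ S_2(Γ₀(N))` is the newform of the elliptic curve `E : y² = x³ + a x + b` of conductor `N` and
root number `w`: the Fourier coefficients `c(n)` of `f` are real with `c(1) = 1`, they satisfy the
Hecke relations `c(mn) = c(m) c(n)` for coprime `m`, `n` and `c(p^(j+2)) = c(p) c(p^(j+1)) - p c(p^j)`
(without the last term if `p ∣ N`), `f(-1/(Nτ)) = -w N τ² f(τ)`, `c(p) = a_p(E)` for all primes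
`p ∤ 2 (4a³ + 27b²)`, `|c(p)| ≤ 2 √p` for all `p ∤ N` (Hasse) and `c(p) = 0, 1, -1` for `p ∣ N`. -/
structure IsFormOf (a b : ℤ) (N : ℕ) (f : CuspForm (Gamma0 N : Subgroup (GL (Fin 2) ℝ)) 2) (w : ℝ) :
    Prop where
  one : coef f 1 = 1
  real : ∀ n, (coef f n).im = 0
  mul : ∀ m n : ℕ, Nat.Coprime m n → coef f (m * n) = coef f m * coef f n
  pow : ∀ p j : ℕ, p.Prime → coef f (p ^ (j + 2)) = coef f p * coef f (p ^ (j + 1)) -
      (if p ∣ N then 0 else (p : ℂ) * coef f (p ^ j))
  sign : w = 1 ∨ w = -1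
  fricke : ∀ τ τ' : ℍ, (τ' : ℂ) * ((N : ℂ) * (τ : ℂ)) = -1 →
    f τ' = -(w : ℂ) * (N : ℂ) * (τ : ℂ) ^ 2 * f τ
  points : ∀ p : ℕ, p.Prime → ¬ (p : ℤ) ∣ 2 * (4 * a ^ 3 + 27 * b ^ 2) → coef f p = (ap a b p : ℂ)
  good : ∀ p : ℕ, p.Prime → ¬ p ∣ N → ‖coef f p‖ ≤ 2 * Real.sqrt p
  bad : ∀ p : ℕ, p.Prime → p ∣ N → coef f p = 0 ∨ coef f p = 1 ∨ coef f p = -1

/-- The completed L-function of the twist of `E` by `χ` modulo `q`, for `Re s > 3/2`:
`(√N q / 2π)^s Γ(s) ∑ c(n) χ(n) n^(-s)`. -/
noncomputable def twist {N : ℕ} (f : CuspForm (Gamma0 N : Subgroup (GL (Fin 2) ℝ)) 2) {q : ℕ}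
    (χ : DirichletCharacter ℂ q) (s : ℂ) : ℂ :=
  ((Real.sqrt N * q / (2 * Real.pi) : ℝ) : ℂ) ^ s * Complex.Gamma s *
    ∑' n : ℕ, coef f (n + 1) * χ ((n + 1 : ℕ) : ZMod q) * ((n + 1 : ℕ) : ℂ) ^ (-s)

/-- `Λ = Λ(E/K, s)`, where `K` is the abelian number field with the group `G` of Dirichlet
characters: `Λ` is entire and, for `Re s > 3/2`, it is the product over `χ` in `G` of the completed
L-functions of the twists of `E` by the primitive character associated with `χ`. -/
def IsCompleted {M : ℕ} (G : Subgroup (DirichletCharacter ℂ M)) [Fintype G] {N : ℕ}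
    (f : CuspForm (Gamma0 N : Subgroup (GL (Fin 2) ℝ)) 2) (Λ : ℂ → ℂ) : Prop :=
  Differentiable ℂ Λ ∧ ∀ s : ℂ, 3 / 2 < s.re →
    Λ s = ∏ χ : G, twist f (χ : DirichletCharacter ℂ M).primitiveCharacter s

/-! ### Windows -/

/-- The zeros of `Λ` with imaginary part in `(x, y]`. -/
def zeros (Λ : ℂ → ℂ) (x y : ℝ) : Set ℂ := {s | Λ s = 0 ∧ x < s.im ∧ s.im ≤ y}

/-- Their number, counted with multiplicity. -/
noncomputable def count (Λ : ℂ → ℂ) (x y : ℝ) : ℕ := ∑ᶠ s ∈ zeros Λ x y, analyticOrderNatAt Λ s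

/-- The window of heights `(t, t + h / log T]` is typical up to `ε`: the number of zeros in it, counted with
multiplicity, differs from `d h / π` by at most `ε h`, and ALL of them are at distance at most `ε h / log T`
from the line `Re s = 1`. -/
def Typical (Λ : ℂ → ℂ) (d : ℕ) (ε h T t : ℝ) : Prop :=
  |(count Λ t (t + h / Real.log T) : ℝ) - d * h / Real.pi| ≤ ε * h ∧
    ∀ s ∈ zeros Λ t (t + h / Real.log T), |s.re - 1| ≤ ε * h / Real.log T

/-- **Main theorem.** Let `E : y² = x³ + a x + b` be an elliptic curve over `ℚ` with newform `f` of level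
`N`, and let `K` be an abelian number field of conductor prime to `N`, given by its group `G` of Dirichlet
characters modulo `M`, of degree `d = card G`.  Then `Λ(E/K, s)` exists, is unique and has a functional equation, and
for every `ε > 0` there are `c, C > 0` such that for all `T ≥ 2` and `0 ≤ h ≤ log T` the measure of the set of the heights
`t` in `[0, T]` for which the window `(t, t + h / log T]` is not typical up to `ε` is at most `C exp (-c h) T`. -/
theorem result : ∀ (a b : ℤ) (N : ℕ) [NeZero N] (f : CuspForm (Gamma0 N : Subgroup (GL (Fin 2) ℝ)) 2) (w : ℝ),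
    4 * a ^ 3 + 27 * b ^ 2 ≠ 0 → IsFormOf a b N f w →
    ∀ (M : ℕ) [NeZero M] (G : Subgroup (DirichletCharacter ℂ M)) [Fintype G], Nat.Coprime M N →
    ∃ Λ : ℂ → ℂ, IsCompleted G f Λ ∧ (∀ Λ' : ℂ → ℂ, IsCompleted G f Λ' → Λ' = Λ) ∧
      (∃ W : ℂ, ‖W‖ = 1 ∧ ∀ s : ℂ, Λ (2 - s) = W * conj (Λ (conj s))) ∧
      (∀ x y : ℝ, (zeros Λ x y).Finite) ∧
      ∀ ε : ℝ, 0 < ε → ∃ c C : ℝ, 0 < c ∧ 0 < C ∧ ∀ h T : ℝ, 0 ≤ h → 2 ≤ T → h ≤ Real.log T →
        MeasureTheory.volume {t : ℝ | 0 ≤ t ∧ t ≤ T ∧ ¬ Typical Λ (Fintype.card G) ε h T t} ≤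
          ENNReal.ofReal (C * Real.exp (-(c * h)) * T) := by
  intro a b N _ f w _ hf M _ G _ hco
  have hf' : Pool.Agent.W169.HF.IsForm N f w :=
    { one := hf.one
      real := hf.real
      mul := hf.mul
      pow := hf.pow
      sign := hf.sign
      fricke := hf.fricke
      good := hf.good
      bad := fun p hp hpN => by
        have h1 : (1 : ℝ) ≤ Real.sqrt p := by
          rw [Real.one_le_sqrt]
          exact_mod_cast hp.one_le
        have h2 : ‖coef f p‖ ≤ 1 := by
          rcases hf.bad p hp hpN with h | h | h <;> simp [h]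
        exact h2.trans h1 }
  obtain ⟨X, v, hP, hv, hX⟩ := Pool.Agent.R838.TW.pl_ab G hf' hco
  obtain ⟨Λ, h1, h2, h3, h4⟩ := Pool.Agent.R838.TW.exists_Lam hP 1 (G := Pool.Agent.W355.UN.prodE G f) hv (σ := 3 / 2)
    (fun s hs => by rw [Complex.ofReal_one]; exact hX s hs)
  have hκ : (1 : ℝ) / 2 ≤ Fintype.card G := by
    have h5 : (1 : ℝ) ≤ Fintype.card G := by exact_mod_cast (Fintype.card_pos : 0 < Fintype.card G)
    linarith
  refine ⟨Λ, ⟨h1, h2⟩, fun Λ' h' => Pool.Agent.R838.TW.uniq h1 h'.1 ⟨3 / 2, h2⟩ ⟨3 / 2, h'.2⟩, ?_,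
    (Pool.Agent.Helper29K9.Clu.conc_pl hκ hv h1 h4 one_pos).1, fun ε hε => ?_⟩
  · obtain ⟨W, hW, h7⟩ := h3
    refine ⟨W, hW, fun s => ?_⟩
    have h8 := h7 s
    rwa [Complex.ofReal_one, mul_one] at h8
  · obtain ⟨c, C, hc, hC, h5⟩ := (Pool.Agent.Helper29K9.Clu.conc_pl hκ hv h1 h4 hε).2
    refine ⟨c, C, hc, hC, fun h T hh hT hhT => (MeasureTheory.measure_mono ?_).trans (h5 h T hh hT hhT)⟩
    rintro t ⟨k1, k2, k3⟩
    exact ⟨k1, k2, fun k4 => k3 ⟨k4.1, fun s hs => k4.2 s hs.1 hs.2.1 hs.2.2⟩⟩

end Pool.Agent.Results.MP_fb225e_nt.TypicalWindows
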